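import Pool.Agent.L5helper98.ID.Defs

/-!
# MAS: the mass and its integral in `[0,∞]`
-/

set_option autoImplicit false

open MeasureTheory ProbabilityTheory Filter Topology Set
open scoped ENNReal

namespace Pool.Agent.L5helper67.ID

open Pool.Agent.L5helper98.ID

theorem mass_eq {Ω : Type} (ω : ℝ → Ω → ℝ) (o : Ω) :
    mass (fun _ => 1) 0 Real.pi ω o = ∫ u in D, Real.exp (ω u o) := by
  unfold mass D
  rw [Real.ball_eq_Ioo, zero_sub, zero_add]
  simp only [one_mul]

theorem MAS_holds : St_MAS := by
  intro Ω _ P _ ω hω hint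
  have hm : Measurable (Function.uncurry fun (o : Ω) (u : ℝ) => Real.exp (ω u o)) :=
    Real.measurable_exp.comp (hω.comp measurable_swap)
  have hm1 : ∀ o : Ω, Measurable fun u : ℝ => Real.exp (ω u o) := fun o =>
    hm.comp measurable_prodMk_left
  have e : mass (fun _ => 1) 0 Real.pi ω = fun o => ∫ u in D, Real.exp (ω u o) :=
    funext fun o => mass_eq ω o
  refine ⟨?_, fun o => ?_, ?_⟩
  · rw [e]
    exact (hm.stronglyMeasurable.integral_prod_right (ν := volume.restrict D)).measurable.aemeasurable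
  · rw [mass_eq]
    exact integral_nonneg fun u => (Real.exp_pos _).le
  · have hL : Measurable fun o : Ω => ∫⁻ u in D, ENNReal.ofReal (Real.exp (ω u o)) :=
      Measurable.lintegral_prod_right' (f := fun p : Ω × ℝ => ENNReal.ofReal (Real.exp (ω p.2 p.1)))
        (ENNReal.measurable_ofReal.comp hm)
    have hfin : ∫⁻ o, (∫⁻ u in D, ENNReal.ofReal (Real.exp (ω u o))) ∂P ≠ ∞ := by
      rw [hint]
      exact ENNReal.ofReal_ne_top
    filter_upwards [ae_lt_top hL hfin] with o ho
    rw [mass_eq]
    have hnn : 0 ≤ᵐ[volume.restrict D] fun u : ℝ => Real.exp (ω u o) :=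
      Eventually.of_forall fun u => (Real.exp_pos _).le
    apply ofReal_integral_eq_lintegral_ofReal _ hnn
    exact ⟨(hm1 o).aestronglyMeasurable, (hasFiniteIntegral_iff_ofReal hnn).2 ho⟩

end Pool.Agent.L5helper67.ID
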